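import Pool.Agent.H451R4.Diag

set_option autoImplicit false

namespace Pool.Agent.H451R4

open Function Module

theorem comm_neg {K : Type} [Field K] {Y : Type} [AddCommGroup Y] [Module K Y]
    (P A : Module.End K Y) : P * (-A) - (-A) * P = -(P * A - A * P) := by
  rw [mul_neg, neg_mul]; abel

variable (K : Type) [Field K]

/-- the projection on the negative part -/
noncomputable def P0 : Module.End K (LaurentSeries K) := HahnSeries.truncLTLinearMap K (0 : ℤ)

/-- multiplication operators -/
noncomputable def mulOp : LaurentSeries K →+* Module.End K (LaurentSeries K) where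
  toFun f :=
    { toFun := fun y => f * y
      map_add' := fun x y => mul_add f x y
      map_smul' := fun c y => by
        rw [RingHom.id_apply, ← HahnSeries.C_mul_eq_smul, ← HahnSeries.C_mul_eq_smul,
          mul_left_comm] }
  map_one' := by ext1 y; exact one_mul y
  map_zero' := by ext1 y; exact zero_mul y
  map_mul' f g := by ext1 y; exact mul_assoc f g y
  map_add' f g := by ext1 y; exact add_mul f g y

theorem mulOp_apply (f y : LaurentSeries K) : mulOp K f y = f * y := rfl

theorem P0_apply (y : LaurentSeries K) (i : ℤ) : (P0 K y).coeff i = if i < 0 then y.coeff i else 0 := by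
  exact HahnSeries.coeff_truncLT 0 y i

theorem P0_idem : P0 K * P0 K = P0 K := by
  apply LinearMap.ext
  intro y
  apply HahnSeries.ext
  funext i
  show (P0 K (P0 K y)).coeff i = _
  rw [P0_apply, P0_apply]
  split_ifs <;> rfl

/-- the subfield of Laurent series commuting with the projection up to finite rank -/
noncomputable def LL : Subfield (LaurentSeries K) where
  carrier := {f | FR (P0 K * mulOp K f - mulOp K f * P0 K)}
  mul_mem' := by
    intro f g hf hg
    show FR (P0 K * mulOp K (f * g) - mulOp K (f * g) * P0 K)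
    have e : P0 K * mulOp K (f * g) - mulOp K (f * g) * P0 K =
        (P0 K * mulOp K f - mulOp K f * P0 K) * mulOp K g +
        mulOp K f * (P0 K * mulOp K g - mulOp K g * P0 K) := by
      rw [map_mul]
      simp only [mul_sub, sub_mul, mul_assoc]
      abel
    rw [e]
    exact (hf.mul_right _).add (hg.mul_left _)
  one_mem' := by
    show FR _
    rw [map_one, mul_one, one_mul, sub_self]; exact FR_zero
  add_mem' := by
    intro f g hf hg
    show FR (P0 K * mulOp K (f + g) - mulOp K (f + g) * P0 K)
    have e : P0 K * mulOp K (f + g) - mulOp K (f + g) * P0 K =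
        (P0 K * mulOp K f - mulOp K f * P0 K) +
        (P0 K * mulOp K g - mulOp K g * P0 K) := by
      rw [map_add]
      simp only [mul_add, add_mul]
      abel
    rw [e]
    exact FR.add hf hg
  zero_mem' := by
    show FR _
    rw [map_zero, mul_zero, zero_mul, sub_self]; exact FR_zero
  neg_mem' := by
    intro f hf
    show FR (P0 K * mulOp K (-f) - mulOp K (-f) * P0 K)
    have e : P0 K * mulOp K (-f) - mulOp K (-f) * P0 K =
        -(P0 K * mulOp K f - mulOp K f * P0 K) := by
      rw [map_neg]
      exact comm_neg _ _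
    rw [e]
    exact FR.neg hf
  inv_mem' := by
    intro f hf
    show FR (P0 K * mulOp K f⁻¹ - mulOp K f⁻¹ * P0 K)
    by_cases h : f = 0
    · rw [h, inv_zero, map_zero, mul_zero, zero_mul, sub_self]; exact FR_zero
    have h1 : mulOp K f⁻¹ * mulOp K f = 1 := by rw [← map_mul, inv_mul_cancel₀ h, map_one]
    have h2 : mulOp K f * mulOp K f⁻¹ = 1 := by rw [← map_mul, mul_inv_cancel₀ h, map_one]
    have e : P0 K * mulOp K f⁻¹ - mulOp K f⁻¹ * P0 K =
        -(mulOp K f⁻¹ * (P0 K * mulOp K f - mulOp K f * P0 K) * mulOp K f⁻¹) := by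
      rw [mul_sub, sub_mul]
      have a1 : mulOp K f⁻¹ * (P0 K * mulOp K f) * mulOp K f⁻¹ = mulOp K f⁻¹ * P0 K := by
        calc mulOp K f⁻¹ * (P0 K * mulOp K f) * mulOp K f⁻¹
            = mulOp K f⁻¹ * P0 K * (mulOp K f * mulOp K f⁻¹) := by simp only [mul_assoc]
          _ = _ := by rw [h2, mul_one]
      have a2 : mulOp K f⁻¹ * (mulOp K f * P0 K) * mulOp K f⁻¹ = P0 K * mulOp K f⁻¹ := by
        calc mulOp K f⁻¹ * (mulOp K f * P0 K) * mulOp K f⁻¹
            = (mulOp K f⁻¹ * mulOp K f) * P0 K * mulOp K f⁻¹ := by simp only [mul_assoc]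
          _ = _ := by rw [h1, one_mul]
      rw [a1, a2]; abel
    rw [e]
    exact ((FR.mul_left hf _).mul_right _).neg

/-- the uniformizer -/
noncomputable def tt : LaurentSeries K := HahnSeries.single (1 : ℤ) (1 : K)

theorem tt_inv : (tt K)⁻¹ = HahnSeries.single (-1 : ℤ) (1 : K) := by
  unfold tt
  rw [HahnSeries.inv_single]; simp

theorem tt_ne : tt K ≠ 0 := by
  unfold tt
  simp

theorem tt_coeff (y : LaurentSeries K) (i : ℤ) : (tt K * y).coeff i = y.coeff (i - 1) := by
  unfold tt
  have := HahnSeries.coeff_single_mul_add (r := (1 : K)) (x := y) (a := i - 1) (b := (1 : ℤ))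
  rw [sub_add_cancel, one_mul] at this
  exact this

theorem ttinv_coeff (y : LaurentSeries K) (i : ℤ) : ((tt K)⁻¹ * y).coeff i = y.coeff (i + 1) := by
  rw [tt_inv]
  have := HahnSeries.coeff_single_mul_add (r := (1 : K)) (x := y) (a := i + 1) (b := (-1 : ℤ))
  rw [add_neg_cancel_right, one_mul] at this
  exact this

/-- coefficient functional -/
noncomputable def cf (i : ℤ) : LaurentSeries K →ₗ[K] K where
  toFun y := y.coeff i
  map_add' _ _ := rfl
  map_smul' _ _ := rfl

/-- projection on one coefficient -/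
noncomputable def E (i : ℤ) : Module.End K (LaurentSeries K) :=
  r1 (HahnSeries.single i (1 : K)) (cf K i)

theorem E_coeff (i : ℤ) (y : LaurentSeries K) (j : ℤ) :
    (E K i y).coeff j = if j = i then y.coeff i else 0 := by
  unfold E
  rw [r1_apply]
  show y.coeff i • (HahnSeries.single i (1 : K)).coeff j = _
  by_cases h : j = i
  · subst h; simp
  · rw [HahnSeries.coeff_single_of_ne h]; simp [h]

theorem E_FR (i : ℤ) : FR (E K i) := FR_r1 _ _

theorem E_rk (i : ℤ) : rk (E K i) = 1 := by
  unfold rk
  have : LinearMap.range (E K i) = Submodule.span K {HahnSeries.single i (1 : K)} := by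
    apply le_antisymm
    · rintro _ ⟨y, rfl⟩
      exact Submodule.smul_mem _ _ (Submodule.mem_span_singleton_self _)
    · rw [Submodule.span_singleton_le_iff_mem]
      refine ⟨HahnSeries.single i (1 : K), ?_⟩
      unfold E
      rw [r1_apply]
      show (HahnSeries.single i (1 : K)).coeff i • _ = _
      rw [HahnSeries.coeff_single_same, one_smul]
  rw [this]
  apply finrank_span_singleton
  simp

theorem rk_zero {Y : Type} [AddCommGroup Y] [Module K Y] : rk (0 : Module.End K Y) = 0 := by
  unfold rk
  rw [LinearMap.range_zero, finrank_bot]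

theorem tt_mem : tt K ∈ LL K := by
  show FR (P0 K * mulOp K (tt K) - mulOp K (tt K) * P0 K)
  have e : P0 K * mulOp K (tt K) - mulOp K (tt K) * P0 K = -(mulOp K (tt K) * E K (-1)) := by
    apply LinearMap.ext
    intro y
    apply HahnSeries.ext
    funext i
    show (P0 K (tt K * y) - tt K * (P0 K y)).coeff i = (-(tt K * (E K (-1) y))).coeff i
    rw [HahnSeries.coeff_sub, HahnSeries.coeff_neg, P0_apply, tt_coeff, tt_coeff, tt_coeff,
      P0_apply, E_coeff]
    by_cases h0 : i < 0
    · rw [if_pos h0, if_pos (by omega), if_neg (by omega)]; simp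
    · rw [if_neg h0]
      by_cases h1 : i = 0
      · subst h1; simp
      · rw [if_neg (by omega), if_neg (by omega)]; simp
  rw [e]
  exact ((E_FR K _).mul_left _).neg

/-- forward operator -/
noncomputable def T0 : Module.End K (LaurentSeries K) := mulOp K (tt K) * (1 - E K (-1))

/-- backward operator -/
noncomputable def S0 : Module.End K (LaurentSeries K) := mulOp K (tt K)⁻¹ * (1 - E K 0)

theorem T0_coeff (y : LaurentSeries K) (i : ℤ) :
    (T0 K y).coeff i = if i = 0 then 0 else y.coeff (i - 1) := by
  show (tt K * (y - E K (-1) y)).coeff i = _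
  rw [tt_coeff, HahnSeries.coeff_sub, E_coeff]
  by_cases h : i = 0
  · subst h; simp
  · rw [if_neg (by omega), if_neg h, sub_zero]

theorem S0_coeff (y : LaurentSeries K) (i : ℤ) :
    (S0 K y).coeff i = if i = -1 then 0 else y.coeff (i + 1) := by
  show ((tt K)⁻¹ * (y - E K 0 y)).coeff i = _
  rw [ttinv_coeff, HahnSeries.coeff_sub, E_coeff]
  by_cases h : i = -1
  · subst h; simp
  · rw [if_neg (by omega), if_neg h, sub_zero]

theorem op_ext {A B : Module.End K (LaurentSeries K)}
    (h : ∀ y i, (A y).coeff i = (B y).coeff i) : A = B := by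
  apply LinearMap.ext
  intro y
  apply HahnSeries.ext
  funext i
  exact h y i

theorem T0S0 : 1 - T0 K * S0 K = E K 0 := by
  apply op_ext
  intro y i
  show (y - T0 K (S0 K y)).coeff i = _
  rw [HahnSeries.coeff_sub, T0_coeff, S0_coeff, E_coeff]
  by_cases h : i = 0
  · subst h; simp
  · rw [if_neg h, if_neg (by omega), if_neg h]; simp

theorem S0T0 : 1 - S0 K * T0 K = E K (-1) := by
  apply op_ext
  intro y i
  show (y - S0 K (T0 K y)).coeff i = _
  rw [HahnSeries.coeff_sub, S0_coeff, T0_coeff, E_coeff]
  by_cases h : i = -1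
  · subst h; simp
  · rw [if_neg h, if_neg (by omega), if_neg h]; simp

theorem T0P0 : T0 K * P0 K = P0 K * T0 K := by
  apply op_ext
  intro y i
  show (T0 K (P0 K y)).coeff i = (P0 K (T0 K y)).coeff i
  rw [T0_coeff, P0_apply, P0_apply, T0_coeff]
  by_cases h : i = 0
  · subst h; simp
  · rw [if_neg h, if_neg h]
    by_cases h2 : i < 0
    · rw [if_pos h2, if_pos (by omega)]
    · rw [if_neg h2, if_neg (by omega)]

theorem S0P0 : S0 K * P0 K = P0 K * S0 K := by
  apply op_ext
  intro y i
  show (S0 K (P0 K y)).coeff i = (P0 K (S0 K y)).coeff i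
  rw [S0_coeff, P0_apply, P0_apply, S0_coeff]
  by_cases h : i = -1
  · subst h; simp
  · rw [if_neg h, if_neg h]
    by_cases h2 : i < 0
    · rw [if_pos h2, if_pos (by omega)]
    · rw [if_neg h2, if_neg (by omega)]

theorem P0E (i : ℤ) (hi : i < 0) : P0 K * E K i = E K i := by
  apply op_ext
  intro y j
  show (P0 K (E K i y)).coeff j = _
  rw [P0_apply, E_coeff]
  by_cases h : j = i
  · subst h; simp [hi]
  · rw [if_neg h]; simp

theorem P0E' (i : ℤ) (hi : ¬ i < 0) : P0 K * E K i = 0 := by
  apply op_ext
  intro y j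
  show (P0 K (E K i y)).coeff j = 0
  rw [P0_apply, E_coeff]
  by_cases h : j = i
  · subst h; rw [if_neg hi]
  · rw [if_neg h]; simp

theorem T0S0T0 : T0 K * S0 K * T0 K = T0 K := by
  have h : T0 K * S0 K = 1 - E K 0 := by rw [← T0S0]; abel
  rw [h]
  apply op_ext
  intro y i
  show (T0 K y - E K 0 (T0 K y)).coeff i = _
  rw [HahnSeries.coeff_sub, E_coeff, T0_coeff, T0_coeff]
  by_cases h : i = 0
  · subst h; simp
  · rw [if_neg h, if_neg h]; simp

/-- the bottom level -/
noncomputable def lev0 : Lev K (LL K) ⟨tt K, tt_mem K⟩ where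
  Y := LaurentSeries K
  ρ := (mulOp K).comp (LL K).subtype
  p := P0 K
  hp := P0_idem K
  hc := fun f => f.2
  T := T0 K
  S := S0 K
  hT := T0P0 K
  hTr := by
    have e : T0 K - mulOp K (tt K) = -(mulOp K (tt K) * E K (-1)) := by
      unfold T0
      rw [mul_sub, mul_one, sub_sub_cancel_left]
    show FR (T0 K - mulOp K (tt K))
    rw [e]
    exact ((E_FR K _).mul_left _).neg
  hS := S0P0 K
  hTST := T0S0T0 K
  hk := by rw [S0T0]; exact E_FR K _
  hk' := by rw [T0S0]; exact E_FR K _
  h0 := by
    rw [S0T0, T0S0, P0E K (-1) (by norm_num), P0E' K 0 (by norm_num), rk_zero, E_rk]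
  h1 := by
    rw [S0T0, T0S0, sub_mul, sub_mul, P0E K (-1) (by norm_num), P0E' K 0 (by norm_num)]
    simp only [one_mul, sub_zero, sub_self]
    rw [rk_zero, E_rk]

end Pool.Agent.H451R4
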