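import Pool.Agent.H451R4.Fin

set_option autoImplicit false

namespace Pool.Agent.H451R4

open Function Module

variable {K : Type} [Field K]

section
variable {Y : Type} [AddCommGroup Y] [Module K Y]

/-- rank -/
noncomputable def rk (A : Module.End K Y) : ℕ := Module.finrank K (LinearMap.range A)

theorem rk_mul_le_left {A : Module.End K Y} (hA : FR A) (B : Module.End K Y) :
    rk (A * B) ≤ rk A := by
  unfold FR at hA
  unfold rk
  apply Submodule.finrank_mono
  rintro _ ⟨y, rfl⟩
  exact ⟨B y, rfl⟩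

theorem rk_mul_le_right (A : Module.End K Y) {B : Module.End K Y} (hB : FR B) :
    rk (A * B) ≤ rk B := by
  unfold FR at hB
  unfold rk
  have h : LinearMap.range (A * B) = (LinearMap.range B).map A := by
    rw [Module.End.mul_eq_comp, LinearMap.range_comp]
  rw [h]
  exact Submodule.finrank_map_le A (LinearMap.range B)

/-- diagonal operators -/
def D (A : Fin 3 → Module.End K Y) : Module.End K (Fin 3 → Y) :=
  LinearMap.pi (fun i => A i ∘ₗ LinearMap.proj i)

theorem D_apply (A : Fin 3 → Module.End K Y) (y : Fin 3 → Y) (i : Fin 3) :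
    D A y i = A i (y i) := rfl

theorem D_mul (A B : Fin 3 → Module.End K Y) : D A * D B = D (A * B) := rfl

theorem D_add (A B : Fin 3 → Module.End K Y) : D A + D B = D (A + B) := rfl

theorem D_sub (A B : Fin 3 → Module.End K Y) : D A - D B = D (A - B) := rfl

theorem D_one : (D (1 : Fin 3 → Module.End K Y)) = 1 := rfl

theorem D_zero : (D (0 : Fin 3 → Module.End K Y)) = 0 := rfl

theorem D_inj {A B : Fin 3 → Module.End K Y} (h : D A = D B) : A = B := by
  funext i
  ext y
  have := congrFun (LinearMap.congr_fun h (fun _ => y)) i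
  exact this

/-- range of a diagonal operator -/
noncomputable def rangeD (A : Fin 3 → Module.End K Y) :
    LinearMap.range (D A) ≃ₗ[K] (∀ i, LinearMap.range (A i)) where
  toFun y := fun i => ⟨y.1 i, by
    obtain ⟨z, hz⟩ := y.2
    exact ⟨z i, by rw [← hz]; rfl⟩⟩
  map_add' y z := rfl
  map_smul' c y := rfl
  invFun z := ⟨fun i => (z i).1, by
    choose w hw using fun i => (z i).2
    exact ⟨w, by funext i; exact hw i⟩⟩
  left_inv y := rfl
  right_inv z := rfl

theorem FR_D {A : Fin 3 → Module.End K Y} (hA : ∀ i, FR (A i)) : FR (D A) := by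
  unfold FR at hA ⊢
  exact LinearEquiv.finiteDimensional (rangeD A).symm

theorem rk_D {A : Fin 3 → Module.End K Y} (hA : ∀ i, FR (A i)) :
    rk (D A) = rk (A 0) + rk (A 1) + rk (A 2) := by
  unfold FR at hA
  unfold rk
  rw [LinearEquiv.finrank_eq (rangeD A), Module.finrank_pi_fintype, Fin.sum_univ_three]

end

/-- a level of the construction -/
structure Lev (K : Type) [Field K] (L : Type) [Field L] (t : L) where
  Y : Type
  [g : AddCommGroup Y]
  [m : Module K Y]
  ρ : L →+* Module.End K Y
  p : Module.End K Y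
  hp : p * p = p
  hc : ∀ f : L, FR (p * ρ f - ρ f * p)
  T : Module.End K Y
  S : Module.End K Y
  hT : T * p = p * T
  hTr : FR (T - ρ t)
  hS : S * p = p * S
  hTST : T * S * T = T
  hk : FR (1 - S * T)
  hk' : FR (1 - T * S)
  h0 : rk (p * (1 - S * T)) = rk (p * (1 - T * S)) + 1
  h1 : rk ((1 - p) * (1 - T * S)) = rk ((1 - p) * (1 - S * T)) + 1

attribute [instance] Lev.g Lev.m

variable {L : Type} [Field L] {t : L}

theorem vec3_FR {Y : Type} [AddCommGroup Y] [Module K Y] {A : Fin 3 → Module.End K Y}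
    (h0 : FR (A 0)) (h1 : FR (A 1)) (h2 : FR (A 2)) : ∀ i, FR (A i) := by
  intro i
  fin_cases i
  · exact h0
  · exact h1
  · exact h2

theorem rk_next {Y : Type} [AddCommGroup Y] [Module K Y] (p c k : Module.End K Y)
    (hc : FR c) (hk : FR k) (h0 : rk (p * k) = rk (p * c) + 1)
    (h1 : rk ((1 - p) * c) = rk ((1 - p) * k) + 1) :
    rk (D ![p, p, 1 - p] * D (fun _ => k)) = rk (D ![p, p, 1 - p] * D (fun _ => c)) + 1 := by
  have e : ∀ x : Module.End K Y,
      D ![p, p, 1 - p] * D (fun _ => x) = D ![p * x, p * x, (1 - p) * x] := by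
    intro x
    rw [D_mul]
    congr 1
    funext i
    fin_cases i <;> rfl
  have e2 : ∀ x : Module.End K Y, FR x →
      rk (D ![p * x, p * x, (1 - p) * x]) = rk (p * x) + rk (p * x) + rk ((1 - p) * x) := by
    intro x hx
    rw [rk_D]
    · rfl
    · apply vec3_FR <;> exact hx.mul_left _
  rw [e, e, e2 k hk, e2 c hc]
  omega

theorem rk_next' {Y : Type} [AddCommGroup Y] [Module K Y] (p c k : Module.End K Y)
    (hc : FR c) (hk : FR k) (h0 : rk (p * k) = rk (p * c) + 1)
    (h1 : rk ((1 - p) * c) = rk ((1 - p) * k) + 1) :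
    rk ((1 - D ![p, p, 1 - p]) * D (fun _ => c)) =
      rk ((1 - D ![p, p, 1 - p]) * D (fun _ => k)) + 1 := by
  have e : ∀ x : Module.End K Y,
      (1 - D ![p, p, 1 - p]) * D (fun _ => x) = D ![(1 - p) * x, (1 - p) * x, p * x] := by
    intro x
    rw [← D_one, D_sub, D_mul]
    congr 1
    funext i
    fin_cases i
    · rfl
    · rfl
    · show (1 - (1 - p)) * x = p * x
      rw [sub_sub_cancel]
  have e2 : ∀ x : Module.End K Y, FR x →
      rk (D ![(1 - p) * x, (1 - p) * x, p * x]) =
        rk ((1 - p) * x) + rk ((1 - p) * x) + rk (p * x) := by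
    intro x hx
    rw [rk_D]
    · rfl
    · apply vec3_FR <;> exact hx.mul_left _
  rw [e, e, e2 k hk, e2 c hc]
  omega

/-- the next level -/
def Lev.next (l : Lev K L t) : Lev K L t where
  Y := Fin 3 → l.Y
  ρ :=
    { toFun := fun f => D (fun _ => l.ρ f)
      map_one' := by simp only [map_one]; rfl
      map_zero' := by simp only [map_zero]; rfl
      map_mul' := fun f g => by simp only [map_mul]; rfl
      map_add' := fun f g => by simp only [map_add]; rfl }
  p := D ![l.p, l.p, 1 - l.p]
  hp := by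
    rw [D_mul]
    congr 1
    funext i
    fin_cases i
    · exact l.hp
    · exact l.hp
    · show (1 - l.p) * (1 - l.p) = 1 - l.p
      rw [mul_sub, sub_mul, sub_mul, l.hp]; simp
  hc := fun f => by
    show FR (D _ * D _ - D _ * D _)
    rw [D_mul, D_mul, D_sub]
    apply FR_D
    apply vec3_FR
    · exact l.hc f
    · exact l.hc f
    · show FR ((1 - l.p) * l.ρ f - l.ρ f * (1 - l.p))
      have : (1 - l.p) * l.ρ f - l.ρ f * (1 - l.p) = -(l.p * l.ρ f - l.ρ f * l.p) := by
        rw [sub_mul, mul_sub, one_mul, mul_one]; abel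
      rw [this]
      exact (l.hc f).neg
  T := D (fun _ => l.T)
  S := D (fun _ => l.S)
  hT := by
    rw [D_mul, D_mul]
    congr 1
    funext i
    fin_cases i
    · exact l.hT
    · exact l.hT
    · show l.T * (1 - l.p) = (1 - l.p) * l.T
      rw [mul_sub, sub_mul, one_mul, mul_one, l.hT]
  hTr := by
    show FR (D _ - D _)
    rw [D_sub]
    apply FR_D
    intro i
    exact l.hTr
  hS := by
    rw [D_mul, D_mul]
    congr 1
    funext i
    fin_cases i
    · exact l.hS
    · exact l.hS
    · show l.S * (1 - l.p) = (1 - l.p) * l.S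
      rw [mul_sub, sub_mul, one_mul, mul_one, l.hS]
  hTST := by
    rw [D_mul, D_mul]
    congr 1
    funext i
    exact l.hTST
  hk := by
    rw [D_mul, ← D_one, D_sub]
    apply FR_D
    intro i
    exact l.hk
  hk' := by
    rw [D_mul, ← D_one, D_sub]
    apply FR_D
    intro i
    exact l.hk'
  h0 := rk_next l.p (1 - l.T * l.S) (1 - l.S * l.T) l.hk' l.hk l.h0 l.h1
  h1 := rk_next' l.p (1 - l.T * l.S) (1 - l.S * l.T) l.hk' l.hk l.h0 l.h1

end Pool.Agent.H451R4
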