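import Mathlib

set_option autoImplicit false

namespace Pool.Agent.H451R4

open Function Module

variable {K : Type} [Field K]

section
variable {Y : Type} [AddCommGroup Y] [Module K Y]

/-- finite rank operators -/
def FR (A : Module.End K Y) : Prop := FiniteDimensional K (LinearMap.range A)

theorem FR.of_le {A : Module.End K Y} (W : Submodule K Y) [FiniteDimensional K W]
    (h : LinearMap.range A ≤ W) : FR A :=
  Submodule.finiteDimensional_of_le h

theorem FR_zero : FR (0 : Module.End K Y) := by
  unfold FR
  rw [LinearMap.range_zero]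
  infer_instance

theorem FR.add {A B : Module.End K Y} (hA : FR A) (hB : FR B) : FR (A + B) := by
  unfold FR at hA hB
  refine FR.of_le (LinearMap.range A ⊔ LinearMap.range B) ?_
  rintro _ ⟨y, rfl⟩
  exact Submodule.add_mem_sup ⟨y, rfl⟩ ⟨y, rfl⟩

theorem FR.neg {A : Module.End K Y} (hA : FR A) : FR (-A) := by
  unfold FR at hA
  refine FR.of_le (LinearMap.range A) ?_
  rintro _ ⟨y, rfl⟩
  exact ⟨-y, by simp⟩

theorem FR.sub {A B : Module.End K Y} (hA : FR A) (hB : FR B) : FR (A - B) := by
  rw [sub_eq_add_neg]; exact hA.add hB.neg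

theorem FR.mul_right {A : Module.End K Y} (hA : FR A) (B : Module.End K Y) : FR (A * B) := by
  unfold FR at hA
  refine FR.of_le (LinearMap.range A) ?_
  rintro _ ⟨y, rfl⟩
  exact ⟨B y, rfl⟩

theorem FR.mul_left {A : Module.End K Y} (hA : FR A) (B : Module.End K Y) : FR (B * A) := by
  unfold FR at hA
  refine FR.of_le ((LinearMap.range A).map B) ?_
  rintro _ ⟨y, rfl⟩
  exact ⟨A y, ⟨y, rfl⟩, rfl⟩

theorem end_regular (A : Module.End K Y) : ∃ B : Module.End K Y, A * B * A = A := by
  obtain ⟨s, hs⟩ := LinearMap.exists_rightInverse_of_surjective A.rangeRestrict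
    (LinearMap.range_rangeRestrict A)
  obtain ⟨q, hq⟩ := Submodule.exists_isCompl (LinearMap.range A)
  obtain ⟨π, hπ⟩ := LinearMap.exists_leftInverse_of_injective (LinearMap.range A).subtype
    (Submodule.ker_subtype _)
  refine ⟨s ∘ₗ π, ?_⟩
  ext y
  have h1 : π (A y) = A.rangeRestrict y := by
    have := LinearMap.congr_fun hπ (A.rangeRestrict y)
    simpa using this
  have h2 := LinearMap.congr_fun hs (A.rangeRestrict y)
  have h3 : A (s (A.rangeRestrict y)) = A y := by
    have := congrArg Subtype.val h2
    simpa using this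
  show A (s (π (A y))) = A y
  rw [h1, h3]

/-- `1 + a` surjective implies injective for `a` of finite rank. -/
theorem inj_of_surj_one_add {a : Module.End K Y} (ha : FR a)
    (hs : Surjective (1 + a : Module.End K Y)) : Injective (1 + a : Module.End K Y) := by
  unfold FR at ha
  have hW : ∀ x ∈ LinearMap.range a, (1 + a : Module.End K Y) x ∈ LinearMap.range a := by
    intro x hx
    have : (1 + a : Module.End K Y) x = x + a x := by simp
    rw [this]
    exact Submodule.add_mem _ hx ⟨x, rfl⟩
  have hW' : ∀ x, (1 + a : Module.End K Y) x ∈ LinearMap.range a → x ∈ LinearMap.range a := by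
    intro x hx
    have : x = (1 + a : Module.End K Y) x - a x := by simp
    rw [this]
    exact Submodule.sub_mem _ hx ⟨x, rfl⟩
  have hsW : Surjective ((1 + a : Module.End K Y).restrict hW) := by
    rintro ⟨w, hw⟩
    obtain ⟨x, hx⟩ := hs w
    refine ⟨⟨x, hW' x (by rw [hx]; exact hw)⟩, ?_⟩
    apply Subtype.ext
    simpa using hx
  have hiW := LinearMap.injective_iff_surjective.mpr hsW
  rw [← LinearMap.ker_eq_bot, LinearMap.ker_eq_bot']
  intro x hx
  have hxW : x ∈ LinearMap.range a := hW' x (by rw [hx]; exact Submodule.zero_mem _)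
  have : (⟨x, hxW⟩ : LinearMap.range a) = 0 := by
    apply hiW
    apply Subtype.ext
    simpa using hx
  exact congrArg Subtype.val this

theorem df_inv {x y f g : Module.End K Y} (hgf : g * f = 1)
    (ha : FR (x - f)) (hxy : x * y = 1) : y * x = 1 := by
  -- `g * x = 1 + a`
  have h1 : FR (g * (x - f)) := ha.mul_left g
  have h2 : (1 + g * (x - f) : Module.End K Y) = g * x := by
    rw [mul_sub, hgf]; abel
  have hxs : Surjective x := fun z => ⟨y z, LinearMap.congr_fun hxy z⟩
  have hgs : Surjective g := fun z => ⟨f z, LinearMap.congr_fun hgf z⟩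
  have h3 : Surjective (1 + g * (x - f) : Module.End K Y) := by
    rw [h2]
    exact hgs.comp hxs
  have h4 := inj_of_surj_one_add h1 h3
  rw [h2] at h4
  have hxi : Injective x := by
    intro u v huv
    apply h4
    show g (x u) = g (x v)
    rw [huv]
  ext z
  apply hxi
  show x (y (x z)) = x z
  exact LinearMap.congr_fun hxy (x z)

theorem df_zero {x y : Module.End K Y} (ha : FR x) (hxy : x * y = 1) : y * x = 1 := by
  have hxs : Surjective x := fun z => ⟨y z, LinearMap.congr_fun hxy z⟩
  unfold FR at ha
  rw [LinearMap.range_eq_top.mpr hxs] at ha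
  have : FiniteDimensional K Y := by
    have := ha
    exact LinearEquiv.finiteDimensional (Submodule.topEquiv (R := K) (M := Y))
  have hxi : Injective x := LinearMap.injective_iff_surjective.mpr hxs
  ext z
  apply hxi
  show x (y (x z)) = x z
  exact LinearMap.congr_fun hxy (x z)

/-- rank one operators -/
noncomputable def r1 (w : Y) (ψ : Y →ₗ[K] K) : Module.End K Y := ψ.smulRight w

theorem r1_apply (w : Y) (ψ : Y →ₗ[K] K) (y : Y) : r1 w ψ y = ψ y • w := rfl

theorem FR_r1 (w : Y) (ψ : Y →ₗ[K] K) : FR (r1 w ψ) := by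
  refine FR.of_le (Submodule.span K {w}) ?_
  rintro _ ⟨y, rfl⟩
  exact Submodule.smul_mem _ _ (Submodule.mem_span_singleton_self w)

/-- a finite-rank operator is a finite sum of rank-one operators with vectors in the range and
functionals factoring through the operator -/
theorem FR.exists_sum {G : Module.End K Y} (hG : FR G) :
    ∃ (n : ℕ) (w : Fin n → Y) (ψ : Fin n → (Y →ₗ[K] K)),
      (∀ i, w i ∈ LinearMap.range G) ∧ (∀ i y y', G y = G y' → ψ i y = ψ i y') ∧
      G = ∑ i, r1 (w i) (ψ i) := by
  unfold FR at hG
  let b := Module.finBasis K (LinearMap.range G)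
  refine ⟨_, fun i => (b i : Y), fun i => (b.coord i) ∘ₗ G.rangeRestrict, fun i => (b i).2, ?_, ?_⟩
  · intro i y y' h
    have : G.rangeRestrict y = G.rangeRestrict y' := Subtype.ext h
    simp [this]
  · ext y
    have h := b.sum_repr (G.rangeRestrict y)
    have h2 := congrArg Subtype.val h
    simp only [r1_apply, LinearMap.sum_apply]
    rw [Submodule.coe_sum] at h2
    simpa using h2.symm

end

end Pool.Agent.H451R4
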