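import Pool.Agent.H451R4.Level

set_option autoImplicit false

namespace Pool.Agent.H451R4

open Function Module

variable {K : Type} [Field K] {L : Type} [Field L] {t : L}

theorem Lev.kill_aux (l : Lev K L t) (q : Module.End K l.Y) (hq : q * q = q)
    (hqp : ∀ A : Module.End K l.Y, A * q = q * A ↔ A * l.p = l.p * A)
    (x : l.R) (hx : q * (x : Module.End K l.Y) ≠ 0)
    {S : Type} [Ring S] (F : l.R →+* S) (hF : F x = 0) (G : l.R)
    (hG : FR (G : Module.End K l.Y)) (hG1 : q * (G : Module.End K l.Y) = G)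
    (hG2 : (G : Module.End K l.Y) * q = G) : F G = 0 := by
  obtain ⟨v0, hv0⟩ : ∃ v0, (q * (x : Module.End K l.Y)) v0 ≠ 0 := by
    by_contra hcon
    push Not at hcon
    exact hx (LinearMap.ext hcon)
  have hxq : (x : Module.End K l.Y) * q = q * x := (hqp _).2 x.2.1
  set v := q v0 with hv
  have hqv : q v = v := by
    rw [hv]; exact LinearMap.congr_fun hq v0
  have hTv : (x : Module.End K l.Y) v ≠ 0 := by
    rw [hv]
    have : (x : Module.End K l.Y) (q v0) = (q * (x : Module.End K l.Y)) v0 := by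
      rw [← hxq]; rfl
    rw [this]; exact hv0
  have hqTv : q ((x : Module.End K l.Y) v) = (x : Module.End K l.Y) v := by
    have h1 : q ((x : Module.End K l.Y) v) = (q * (x : Module.End K l.Y)) v := rfl
    have h2 : ((x : Module.End K l.Y) * q) v = (x : Module.End K l.Y) (q v) := rfl
    rw [h1, ← hxq, h2, hqv]
  obtain ⟨φ, hφ⟩ : ∃ φ : Module.Dual K l.Y, φ ((x : Module.End K l.Y) v) ≠ 0 := by
    by_contra hcon
    push Not at hcon
    exact hTv ((Module.forall_dual_apply_eq_zero_iff K _).1 hcon)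
  obtain ⟨n, w, ψ, hw, hψ, hsum⟩ := hG.exists_sum
  have hqw : ∀ i, q (w i) = w i := by
    intro i
    obtain ⟨z, hz⟩ := hw i
    rw [← hz]
    exact LinearMap.congr_fun hG1 z
  have hψq : ∀ i y, ψ i (q y) = ψ i y := by
    intro i y
    apply hψ
    exact LinearMap.congr_fun hG2 y
  let c := (φ ((x : Module.End K l.Y) v))⁻¹
  have X : ∀ i, r1 (w i) ((c • φ) ∘ₗ q) ∈ l.R := by
    intro i
    apply l.fr_mem _ _ (FR_r1 _ _)
    rw [← hqp]
    ext y
    show ((c • φ) ∘ₗ q) (q y) • w i = q (((c • φ) ∘ₗ q) y • w i)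
    have : q (q y) = q y := LinearMap.congr_fun hq y
    rw [LinearMap.map_smul, hqw, LinearMap.comp_apply, LinearMap.comp_apply, this]
  have Z : ∀ i, r1 v (ψ i) ∈ l.R := by
    intro i
    apply l.fr_mem _ _ (FR_r1 _ _)
    rw [← hqp]
    ext y
    show (ψ i) (q y) • v = q ((ψ i) y • v)
    rw [LinearMap.map_smul, hqv, hψq]
  have hGs : G = ∑ i, (⟨_, X i⟩ : l.R) * x * (⟨_, Z i⟩ : l.R) := by
    apply Subtype.ext
    rw [AddSubmonoidClass.coe_finsetSum]
    rw [hsum]
    apply Finset.sum_congr rfl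
    intro i _
    show r1 (w i) (ψ i) = r1 (w i) ((c • φ) ∘ₗ q) * (x : Module.End K l.Y) * r1 v (ψ i)
    ext y
    show ψ i y • w i = ((c • φ) ∘ₗ q) ((x : Module.End K l.Y) (ψ i y • v)) • w i
    rw [LinearMap.map_smul, LinearMap.map_smul, LinearMap.comp_apply, hqTv]
    have : (c • φ) ((x : Module.End K l.Y) v) = 1 := by
      show c * φ ((x : Module.End K l.Y) v) = 1
      exact inv_mul_cancel₀ hφ
    rw [this, smul_eq_mul, mul_one]
  rw [hGs, map_sum]
  apply Finset.sum_eq_zero
  intro i _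
  rw [map_mul, map_mul, hF, mul_zero, zero_mul]

theorem Lev.kill (l : Lev K L t) (x : l.R) (h0 : l.p * (x : Module.End K l.Y) ≠ 0)
    (h1 : (1 - l.p) * (x : Module.End K l.Y) ≠ 0)
    {S : Type} [Ring S] (F : l.R →+* S) (hF : F x = 0) (G : l.R)
    (hG : FR (G : Module.End K l.Y)) : F G = 0 := by
  have hp := l.hp
  have hp' : (1 - l.p) * (1 - l.p) = 1 - l.p := by
    rw [mul_sub, sub_mul, sub_mul, hp]; simp
  have hGp := G.2.1
  have hpmem : l.p * (G : Module.End K l.Y) ∈ l.R := by
    apply l.fr_mem _ _ (hG.mul_left _)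
    rw [mul_assoc, hGp]
  have hpmem' : (1 - l.p) * (G : Module.End K l.Y) ∈ l.R := by
    apply l.fr_mem _ _ (hG.mul_left _)
    rw [sub_mul, one_mul, sub_mul, mul_sub, mul_assoc, hGp]
  have e : G = (⟨_, hpmem⟩ : l.R) + ⟨_, hpmem'⟩ := by
    apply Subtype.ext
    show (G : Module.End K l.Y) = l.p * G + (1 - l.p) * G
    rw [sub_mul]; simp
  rw [e, map_add]
  have a1 := l.kill_aux l.p hp (fun A => Iff.rfl) x h0 F hF ⟨_, hpmem⟩ (hG.mul_left _)
    (by show l.p * (l.p * (G : Module.End K l.Y)) = _; rw [← mul_assoc, hp])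
    (by show l.p * (G : Module.End K l.Y) * l.p = _; rw [mul_assoc, hGp, ← mul_assoc, hp])
  have a2 := l.kill_aux (1 - l.p) hp' (fun A => by
      rw [mul_sub, sub_mul, mul_one, one_mul]
      exact sub_right_inj) x h1 F hF ⟨_, hpmem'⟩ (hG.mul_left _)
    (by show (1 - l.p) * ((1 - l.p) * (G : Module.End K l.Y)) = _; rw [← mul_assoc, hp'])
    (by
      show (1 - l.p) * (G : Module.End K l.Y) * (1 - l.p) = _
      have hc : (G : Module.End K l.Y) * (1 - l.p) = (1 - l.p) * G := by
        rw [mul_sub, sub_mul, mul_one, one_mul, hGp]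
      rw [mul_assoc, hc, ← mul_assoc, hp'])
  rw [a1, a2, add_zero]

/-- commutators are of finite rank -/
theorem Lev.comm_fr (l : Lev K L t) (x y : l.R) :
    FR ((x * y - y * x : l.R) : Module.End K l.Y) := by
  obtain ⟨A, hA, f, hf⟩ := x
  obtain ⟨B, hB, g, hg⟩ := y
  show FR (A * B - B * A)
  have hc : l.ρ f * l.ρ g = l.ρ g * l.ρ f := by rw [← map_mul, ← map_mul, mul_comm]
  have e : A * B - B * A = (A - l.ρ f) * B + l.ρ f * (B - l.ρ g) -
      ((B - l.ρ g) * A + l.ρ g * (A - l.ρ f)) := by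
    simp only [mul_sub, sub_mul, hc]
    abel
  rw [e]
  exact ((hf.mul_right _).add (hg.mul_left _)).sub ((hg.mul_right _).add (hf.mul_left _))

/-- the distinguished element is not unit-regular -/
theorem Lev.not_unit (l : Lev K L t) (u : l.Rˣ) (h : l.τ * (u : l.R) * l.τ = l.τ) : False := by
  -- work in `End`
  set U : Module.End K l.Y := ((u : l.R) : Module.End K l.Y) with hU
  set V : Module.End K l.Y := (((u⁻¹ : l.Rˣ) : l.R) : Module.End K l.Y) with hV
  have hUV : U * V = 1 := congrArg Subtype.val u.mul_inv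
  have hVU : V * U = 1 := congrArg Subtype.val u.inv_mul
  have hT : l.T * U * l.T = l.T := congrArg Subtype.val h
  have hT2 := l.hTST
  have hUp : U * l.p = l.p * U := (u : l.R).2.1
  have hVp : V * l.p = l.p * V := ((u⁻¹ : l.Rˣ) : l.R).2.1
  set k := 1 - l.S * l.T with hk
  set c := 1 - l.T * l.S with hc
  set k' := 1 - U * l.T with hk'
  set c' := 1 - l.T * U with hc'
  have hkFR : FR k := l.hk
  have hcFR : FR c := l.hk'
  have hkp : k * l.p = l.p * k := by
    rw [hk, sub_mul, mul_sub, mul_assoc, l.hT, ← mul_assoc, l.hS, mul_assoc]; simp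
  have hcp : c * l.p = l.p * c := by
    rw [hc, sub_mul, mul_sub, mul_assoc, l.hS, ← mul_assoc, l.hT, mul_assoc]; simp
  have hk'p : k' * l.p = l.p * k' := by
    rw [hk', sub_mul, mul_sub, mul_assoc, l.hT, ← mul_assoc, hUp, mul_assoc]; simp
  have hc'p : c' * l.p = l.p * c' := by
    rw [hc', sub_mul, mul_sub, mul_assoc, hUp, ← mul_assoc, l.hT, mul_assoc]; simp
  have e1 : k * k' = k' := by
    rw [hk, hk']
    have : l.S * l.T * (U * l.T) = l.S * l.T := by
      calc l.S * l.T * (U * l.T) = l.S * (l.T * U * l.T) := by simp only [mul_assoc]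
        _ = l.S * l.T := by rw [hT]
    rw [mul_sub, sub_mul, sub_mul, this]; simp
  have e2 : k' * k = k := by
    rw [hk, hk']
    have : U * l.T * (l.S * l.T) = U * l.T := by
      calc U * l.T * (l.S * l.T) = U * (l.T * l.S * l.T) := by simp only [mul_assoc]
        _ = U * l.T := by rw [hT2]
    rw [mul_sub, sub_mul, sub_mul, this]; simp
  have e3 : c' * c = c' := by
    rw [hc, hc']
    have : l.T * U * (l.T * l.S) = l.T * l.S := by
      calc l.T * U * (l.T * l.S) = (l.T * U * l.T) * l.S := by simp only [mul_assoc]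
        _ = l.T * l.S := by rw [hT]
    rw [mul_sub, sub_mul, sub_mul, this]; simp
  have e4 : c * c' = c := by
    rw [hc, hc']
    have : l.T * l.S * (l.T * U) = l.T * U := by
      calc l.T * l.S * (l.T * U) = (l.T * l.S * l.T) * U := by simp only [mul_assoc]
        _ = l.T * U := by rw [hT2]
    rw [mul_sub, sub_mul, sub_mul, this]; simp
  have e5 : U * c' = k' * U := by
    rw [hc', hk', mul_sub, sub_mul]; simp only [mul_assoc, mul_one, one_mul]
  have hk'FR : FR k' := by rw [← e1]; exact hkFR.mul_right _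
  have hc'FR : FR c' := by rw [← e3]; exact hcFR.mul_left _
  have e6 : c' = V * k' * U := by
    calc c' = (V * U) * c' := by rw [hVU, one_mul]
      _ = V * (U * c') := by rw [mul_assoc]
      _ = V * k' * U := by rw [e5, mul_assoc]
  have e7 : k' = U * c' * V := by
    calc k' = k' * (U * V) := by rw [hUV, mul_one]
      _ = (k' * U) * V := by rw [mul_assoc]
      _ = U * c' * V := by rw [e5]
  have f1 : rk (l.p * k) ≤ rk (l.p * k') := by
    have : l.p * k = (l.p * k') * k := by rw [mul_assoc, e2]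
    rw [this]
    exact rk_mul_le_left (hk'FR.mul_left _) _
  have f2 : rk (l.p * k') ≤ rk (l.p * c') := by
    have : l.p * k' = U * (l.p * c' * V) := by
      rw [e7]
      calc l.p * (U * c' * V) = (l.p * U) * c' * V := by simp only [mul_assoc]
        _ = U * (l.p * c' * V) := by rw [← hUp]; simp only [mul_assoc]
    rw [this]
    refine (rk_mul_le_right _ ((hc'FR.mul_left _).mul_right _)).trans ?_
    exact rk_mul_le_left (hc'FR.mul_left _) _
  have f3 : rk (l.p * c') ≤ rk (l.p * c) := by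
    have : l.p * c' = c' * (l.p * c) := by
      calc l.p * c' = l.p * (c' * c) := by rw [e3]
        _ = (l.p * c') * c := by rw [mul_assoc]
        _ = (c' * l.p) * c := by rw [hc'p]
        _ = c' * (l.p * c) := by rw [mul_assoc]
    rw [this]
    exact rk_mul_le_right _ (hcFR.mul_left _)
  have h0 : rk (l.p * k) = rk (l.p * c) + 1 := l.h0
  omega

end Pool.Agent.H451R4
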