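import Pool.Agent.H451R4.Diag

set_option autoImplicit false

namespace Pool.Agent.H451R4

open Function Module

variable {K : Type} [Field K] {L : Type} [Field L] {t : L}

/-- the ring of a level: operators commuting with `p` and congruent to some `ρ f` modulo
finite-rank operators -/
def Lev.R (l : Lev K L t) : Subring (Module.End K l.Y) where
  carrier := {A | A * l.p = l.p * A ∧ ∃ f, FR (A - l.ρ f)}
  mul_mem' := by
    rintro A B ⟨hA, f, hf⟩ ⟨hB, g, hg⟩
    refine ⟨by rw [mul_assoc, hB, ← mul_assoc, hA, mul_assoc], f * g, ?_⟩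
    have : A * B - l.ρ (f * g) = (A - l.ρ f) * B + l.ρ f * (B - l.ρ g) := by
      rw [map_mul, sub_mul, mul_sub]; abel
    rw [this]
    exact (hf.mul_right _).add (hg.mul_left _)
  one_mem' := ⟨by simp, 1, by rw [map_one, sub_self]; exact FR_zero⟩
  add_mem' := by
    rintro A B ⟨hA, f, hf⟩ ⟨hB, g, hg⟩
    refine ⟨by rw [add_mul, mul_add, hA, hB], f + g, ?_⟩
    have : A + B - l.ρ (f + g) = (A - l.ρ f) + (B - l.ρ g) := by
      rw [map_add]; abel
    rw [this]
    exact hf.add hg
  zero_mem' := ⟨by simp, 0, by rw [map_zero, sub_self]; exact FR_zero⟩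
  neg_mem' := by
    rintro A ⟨hA, f, hf⟩
    refine ⟨by rw [neg_mul, mul_neg, hA], -f, ?_⟩
    have : -A - l.ρ (-f) = -(A - l.ρ f) := by
      rw [map_neg]; abel
    rw [this]
    exact hf.neg

theorem Lev.mem_R (l : Lev K L t) (A : Module.End K l.Y) :
    A ∈ l.R ↔ (A * l.p = l.p * A ∧ ∃ f, FR (A - l.ρ f)) := Iff.rfl

theorem Lev.fr_mem (l : Lev K L t) (A : Module.End K l.Y) (h : A * l.p = l.p * A) (hA : FR A) :
    A ∈ l.R := ⟨h, 0, by rw [map_zero, sub_zero]; exact hA⟩

/-- the compression of `ρ f` -/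
def Lev.hat (l : Lev K L t) (f : L) : Module.End K l.Y :=
  l.p * l.ρ f * l.p + (1 - l.p) * l.ρ f * (1 - l.p)

theorem Lev.hat_comm (l : Lev K L t) (f : L) : l.hat f * l.p = l.p * l.hat f := by
  have hp := l.hp
  unfold Lev.hat
  have h1 : (1 - l.p) * l.p = 0 := by rw [sub_mul, hp]; simp
  have h2 : l.p * (1 - l.p) = 0 := by rw [mul_sub, hp]; simp
  rw [add_mul, mul_add, mul_assoc _ _ l.p, hp, mul_assoc _ (1 - l.p) l.p, h1, mul_zero,
    mul_assoc (1 - l.p), ← mul_assoc l.p (1 - l.p), h2, zero_mul, mul_assoc l.p (l.ρ f) l.p,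
    ← mul_assoc l.p l.p, hp]

theorem Lev.hat_fr (l : Lev K L t) (f : L) : FR (l.hat f - l.ρ f) := by
  have hp := l.hp
  have e : l.hat f - l.ρ f =
      l.p * -(l.p * l.ρ f - l.ρ f * l.p) + (l.p * l.ρ f - l.ρ f * l.p) * l.p := by
    unfold Lev.hat
    have h1 : ∀ z, l.p * (l.p * z) = l.p * z := fun z => by rw [← mul_assoc, hp]
    simp only [mul_sub, sub_mul, mul_one, one_mul, mul_neg, h1, hp, mul_assoc]
    abel
  rw [e]
  exact ((l.hc f).neg.mul_left _).add ((l.hc f).mul_right _)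

theorem Lev.hat_mem (l : Lev K L t) (f : L) : l.hat f ∈ l.R := ⟨l.hat_comm f, f, l.hat_fr f⟩

/-- quasi-inverse commuting with `p` for finite-rank operators commuting with `p` -/
theorem Lev.fr_regular (l : Lev K L t) (A : Module.End K l.Y) (hA : A * l.p = l.p * A)
    (hF : FR A) : ∃ B, B * l.p = l.p * B ∧ FR B ∧ A * B * A = A := by
  have hp := l.hp
  obtain ⟨x, hx⟩ := end_regular A
  have h1 : (1 - l.p) * l.p = 0 := by rw [sub_mul, hp]; simp
  have h2 : l.p * (1 - l.p) = 0 := by rw [mul_sub, hp]; simp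
  have hA' : A * (1 - l.p) = (1 - l.p) * A := by rw [mul_sub, sub_mul, hA]; simp
  have h3 : (1 - l.p) * (1 - l.p) = 1 - l.p := by rw [mul_sub, h1]; simp
  set y := l.p * x * l.p + (1 - l.p) * x * (1 - l.p) with hy
  have hyp : y * l.p = l.p * y := by
    rw [hy, add_mul, mul_add, mul_assoc _ _ l.p, hp, mul_assoc _ (1 - l.p) l.p, h1, mul_zero,
      mul_assoc (1 - l.p), ← mul_assoc l.p (1 - l.p), h2, zero_mul, mul_assoc l.p x l.p,
      ← mul_assoc l.p l.p, hp]
  have hAyA : A * y * A = A := by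
    have e1 : A * (l.p * x * l.p) * A = l.p * A := by
      calc A * (l.p * x * l.p) * A = (A * l.p) * x * (l.p * A) := by simp only [mul_assoc]
        _ = (l.p * A) * x * (A * l.p) := by rw [hA]
        _ = l.p * (A * x * A) * l.p := by simp only [mul_assoc]
        _ = l.p * A := by rw [hx, mul_assoc, hA, ← mul_assoc, hp]
    have e2 : A * ((1 - l.p) * x * (1 - l.p)) * A = (1 - l.p) * A := by
      calc A * ((1 - l.p) * x * (1 - l.p)) * A = (A * (1 - l.p)) * x * ((1 - l.p) * A) := by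
            simp only [mul_assoc]
        _ = ((1 - l.p) * A) * x * (A * (1 - l.p)) := by rw [hA']
        _ = (1 - l.p) * (A * x * A) * (1 - l.p) := by simp only [mul_assoc]
        _ = (1 - l.p) * A := by rw [hx, mul_assoc, hA', ← mul_assoc, h3]
    rw [hy, mul_add, add_mul, e1, e2]
    rw [sub_mul]; simp
  refine ⟨y * A * y, ?_, (hF.mul_left _).mul_right _, ?_⟩
  · calc y * A * y * l.p = y * A * (l.p * y) := by rw [mul_assoc, hyp]
      _ = y * (A * l.p) * y := by simp only [mul_assoc]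
      _ = y * (l.p * A) * y := by rw [hA]
      _ = (y * l.p) * A * y := by simp only [mul_assoc]
      _ = l.p * (y * A * y) := by rw [hyp]; simp only [mul_assoc]
  · calc A * (y * A * y) * A = (A * y * A) * y * A := by simp only [mul_assoc]
      _ = A := by rw [hAyA, hAyA]

theorem Lev.regular (l : Lev K L t) (a : l.R) : ∃ x : l.R, a * x * a = a := by
  obtain ⟨A, hA, f, hf⟩ := a
  set S : l.R := ⟨l.hat f⁻¹, l.hat_mem _⟩ with hS
  set a : l.R := ⟨A, hA, f, hf⟩ with ha
  have hb : FR ((a - a * S * a : l.R) : Module.End K l.Y) := by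
    show FR (A - A * l.hat f⁻¹ * A)
    have hff : f * f⁻¹ * f = f := by
      by_cases h : f = 0
      · simp [h]
      · field_simp
    have e : A - A * l.hat f⁻¹ * A = (A - l.ρ f) - ((A - l.ρ f) * l.hat f⁻¹ * A +
        l.ρ f * (l.hat f⁻¹ - l.ρ f⁻¹) * A + l.ρ f * l.ρ f⁻¹ * (A - l.ρ f)) := by
      have : l.ρ f * l.ρ f⁻¹ * l.ρ f = l.ρ f := by rw [← map_mul, ← map_mul, hff]
      simp only [mul_sub, sub_mul, this]
      abel
    rw [e]
    exact hf.sub (((((hf.mul_right _).mul_right _)).add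
      (((l.hat_fr _).mul_left _).mul_right _)).add (hf.mul_left _))
  obtain ⟨y, hy1, hy2, hy3⟩ := l.fr_regular ((a - a * S * a : l.R) : Module.End K l.Y)
    ((a - a * S * a : l.R)).2.1 hb
  set y' : l.R := ⟨y, l.fr_mem y hy1 hy2⟩ with hy'
  have hy4 : (a - a * S * a) * y' * (a - a * S * a) = a - a * S * a := Subtype.ext hy3
  refine ⟨S + (1 - S * a) * y' * (1 - a * S), ?_⟩
  calc a * (S + (1 - S * a) * y' * (1 - a * S)) * a
      = a * S * a + (a - a * S * a) * y' * (a - a * S * a) := by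
        noncomm_ring
    _ = a := by rw [hy4]; abel

theorem Lev.df (l : Lev K L t) (x y : l.R) (hxy : x * y = 1) : y * x = 1 := by
  obtain ⟨A, hA, f, hf⟩ := x
  obtain ⟨B, hB⟩ := y
  have h : A * B = 1 := congrArg Subtype.val hxy
  apply Subtype.ext
  show B * A = 1
  by_cases h0 : f = 0
  · rw [h0, map_zero, sub_zero] at hf
    exact df_zero hf h
  · exact df_inv (g := l.ρ f⁻¹) (by rw [← map_mul, inv_mul_cancel₀ h0, map_one]) hf h

/-- transition map -/
def Lev.φ (l : Lev K L t) : l.R →+* l.next.R where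
  toFun x := ⟨D (fun _ => (x : Module.End K l.Y)), by
    obtain ⟨A, hA, f, hf⟩ := x
    refine ⟨?_, f, ?_⟩
    · show D (fun _ => A) * D ![l.p, l.p, 1 - l.p] = D ![l.p, l.p, 1 - l.p] * D (fun _ => A)
      rw [D_mul, D_mul]
      congr 1
      funext i
      fin_cases i
      · exact hA
      · exact hA
      · show A * (1 - l.p) = (1 - l.p) * A
        rw [mul_sub, sub_mul, one_mul, mul_one, hA]
    · show FR (D (fun _ => A) - D (fun _ => l.ρ f))
      rw [D_sub]
      exact FR_D (fun _ => hf)⟩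
  map_one' := rfl
  map_zero' := rfl
  map_mul' x y := rfl
  map_add' x y := rfl

theorem Lev.φ_inj (l : Lev K L t) : Injective l.φ := by
  intro x y h
  have h2 : D (fun _ => (x : Module.End K l.Y)) = D (fun _ => (y : Module.End K l.Y)) :=
    congrArg Subtype.val h
  have := congrFun (D_inj h2) 0
  exact Subtype.ext this

theorem Lev.grow (l : Lev K L t) (x : l.R) (hx : x ≠ 0) :
    l.next.p * (l.φ x : Module.End K l.next.Y) ≠ 0 ∧
    (1 - l.next.p) * (l.φ x : Module.End K l.next.Y) ≠ 0 := by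
  have key : ∀ h0 : l.p * (x : Module.End K l.Y) = 0,
      ∀ h1 : (1 - l.p) * (x : Module.End K l.Y) = 0, False := by
    intro h0 h1
    apply hx
    apply Subtype.ext
    have : (x : Module.End K l.Y) = l.p * x + (1 - l.p) * x := by rw [sub_mul]; simp
    rw [this, h0, h1]; simp
  constructor
  · intro h
    have h' : D (![l.p, l.p, 1 - l.p] * (fun _ => (x : Module.End K l.Y))) = D 0 := h
    have h'' := D_inj h'
    exact key (congrFun h'' 0) (congrFun h'' 2)
  · intro h
    have h' : D ((1 - ![l.p, l.p, 1 - l.p]) * (fun _ => (x : Module.End K l.Y))) = D 0 := h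
    have h'' := D_inj h'
    have h3 : (1 - (1 - l.p)) * (x : Module.End K l.Y) = 0 := congrFun h'' 2
    rw [sub_sub_cancel] at h3
    exact key h3 (congrFun h'' 0)

/-- the distinguished element -/
def Lev.τ (l : Lev K L t) : l.R := ⟨l.T, l.hT, t, l.hTr⟩

theorem Lev.φ_τ (l : Lev K L t) : l.φ l.τ = l.next.τ := rfl

end Pool.Agent.H451R4
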