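import Mathlib

set_option autoImplicit false

namespace Pool.Agent.H451R4

open Function

/-- composite transition maps -/
noncomputable def trans (G : ℕ → Type) [∀ n, Ring (G n)] (φ : ∀ n, G n →+* G (n + 1))
    (i j : ℕ) (h : i ≤ j) : G i →+* G j :=
  Nat.leRec (motive := fun n _ => G i →+* G n) (RingHom.id _) (fun n _ g => (φ n).comp g) h

section
variable (G : ℕ → Type) [∀ n, Ring (G n)] (φ : ∀ n, G n →+* G (n + 1))

theorem trans_self (i : ℕ) : trans G φ i i le_rfl = RingHom.id _ := by
  unfold trans
  rw [Nat.leRec_self]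

theorem trans_succ (i j : ℕ) (h : i ≤ j) (h' : i ≤ j + 1) :
    trans G φ i (j + 1) h' = (φ j).comp (trans G φ i j h) := by
  unfold trans
  rw [Nat.leRec_succ]

theorem trans_trans (i j k : ℕ) (hij : i ≤ j) (hjk : j ≤ k) :
    (trans G φ j k hjk).comp (trans G φ i j hij) = trans G φ i k (hij.trans hjk) := by
  induction k, hjk using Nat.le_induction with
  | base => rw [trans_self]; rfl
  | succ k hjk ih =>
    rw [trans_succ G φ j k hjk, trans_succ G φ i k (hij.trans hjk), ← ih]
    rfl

theorem trans_inj (hφ : ∀ n, Injective (φ n)) (i j : ℕ) (hij : i ≤ j) :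
    Injective (trans G φ i j hij) := by
  induction j, hij using Nat.le_induction with
  | base => rw [trans_self]; exact injective_id
  | succ k hjk ih =>
    rw [trans_succ G φ i k hjk]
    exact (hφ k).comp ih

instance sys : DirectedSystem G (fun i j h => trans G φ i j h) where
  map_self i x := by
    rw [trans_self]; rfl
  map_map k j i hij hjk x := by
    have := trans_trans G φ i j k hij hjk
    exact congrArg (fun f => f x) this

end

theorem exists_limit (G : ℕ → Type) [∀ n, Ring (G n)] (φ : ∀ n, G n →+* G (n + 1))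
    (hφ : ∀ n, Injective (φ n)) :
    ∃ (R : Type) (_ : Ring R) (ι : ∀ n, G n →+* R),
      (∀ n x, ι (n + 1) (φ n x) = ι n x) ∧ (∀ n, Injective (ι n)) ∧
      (∀ x : R, ∃ n a, ι n a = x) := by
  refine ⟨DirectLimit G (trans G φ), inferInstance, fun n =>
    { toFun := fun x => ⟦⟨n, x⟩⟧
      map_one' := (DirectLimit.one_def (f := trans G φ) n).symm
      map_zero' := (DirectLimit.zero_def (f := trans G φ) n).symm
      map_mul' := fun x y => (DirectLimit.mul_def (f := trans G φ) n x y).symm
      map_add' := fun x y => (DirectLimit.add_def (f := trans G φ) n x y).symm }, ?_, ?_, ?_⟩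
  · intro n x
    have h := DirectLimit.mk_apply (f := trans G φ) n (n + 1) x (Nat.le_succ n)
    rw [trans_succ G φ n n le_rfl, trans_self] at h
    exact h
  · intro n
    exact DirectLimit.mk_injective (trans G φ) (fun i j hij => trans_inj G φ hφ i j hij) n
  · intro x
    obtain ⟨i, a, h⟩ := DirectLimit.exists_eq_mk (trans G φ) x
    exact ⟨i, a, h.symm⟩

end Pool.Agent.H451R4
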